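import Pool.Agent.Work.MP_fcea8e_co.Lin.FinalJ

/-!
# Oriented trees with a vertex of large in- and out-degree adjacent to almost all vertices

`T` is an oriented tree with a vertex `v` such that at most `s` vertices are different from `v` and not
adjacent to `v`, all vertices have distance at most `J` from `v` (this is always so for `J = s + 1`), and
both the out-degree and the in-degree of `v` are at least `(2s + 1) 1000 ^ ((J + 2) (J + 3))`; so for trees
of bounded radius `s` may be a positive proportion of the number of vertices. Then
`t(T) = c(T) = 2 d - 1`, where `d` is the number of neighbours of `v`. There is no other condition on the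
remaining vertices.
-/

set_option autoImplicit false

namespace Pool.Agent.Results.MP_fcea8e_co.DominatingMixed

open Pool.Agent.Work.MP_fcea8e_co.Dom

theorem result (s J : ℕ) {κ : Type} [Fintype κ] (T : Digraph κ) (hT : Oriented T)
    (ht : (SimpleGraph.fromRel T.Adj).IsTree) (v : κ)
    (hJ : s + 1 ≤ J ∨ ∀ x, (SimpleGraph.fromRel T.Adj).dist x v ≤ J)
    (hout : (2 * s + 1) * 1000 ^ ((J + 2) * (J + 3)) ≤ outDeg T v)
    (hin : (2 * s + 1) * 1000 ^ ((J + 2) * (J + 3)) ≤ inDeg T v)
    (hs : Fintype.card κ ≤ outDeg T v + inDeg T v + 1 + s) :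
    tNum T = 2 * (outDeg T v + inDeg T v) - 1 ∧ cNum T = 2 * (outDeg T v + inDeg T v) - 1 :=
  mixedJ hT ht hJ hout hin hs

end Pool.Agent.Results.MP_fcea8e_co.DominatingMixed
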