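import Pool.Agent.Work.MP_fcea8e_co.Lin.FinalJ
import Pool.Agent.Work.MP_fcea8e_co.Broom.Iso

/-!
# Oriented trees with a vertex of dominating out-degree

`T` is an oriented tree, `v` a vertex of out-degree `Δ`, `T` has at most `Δ + 1 + s` vertices, so all but
`s` of the vertices other than `v` are out-neighbours of `v`, and all vertices have distance at most `J`
from `v` (this is always so for `J = s + 1`). Suppose `Δ ≥ (s + 1) 1000 ^ ((J + 2) (J + 3))`; so for trees of
bounded radius `s` may be a positive proportion of the number of vertices.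
Let `A = anc T v` be the subtree of the vertices which have a directed path to `v`. Then
`t(T) = 2Δ - 1 + t(A)` and `c(T) = 2Δ - 1 + c(A)`, where `t` is the least `n` such that every tournament
of order `n` contains the tree and `c` the least `n` such that every oriented graph of chromatic number
at least `n` contains it. In particular `t(T) = c(T) = 2Δ - 1 + max 1 (2a) + j` if `A` is a broom: `a ≥ 0`
sources with arcs to the first vertex of a directed path with `j ≥ 0` arcs (which ends at `v`). The same
holds for the tree with all arcs reversed.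
-/

set_option autoImplicit false

namespace Pool.Agent.Results.MP_fcea8e_co.DominatingVertex

open Pool.Agent.Work.MP_fcea8e_co.Dom Pool.Agent.Work.MP_fcea8e_co.Broom

theorem result (s J : ℕ) {κ : Type} [Fintype κ] (T : Digraph κ) (hT : Oriented T)
    (ht : (SimpleGraph.fromRel T.Adj).IsTree) (v : κ)
    (hJ : s + 1 ≤ J ∨ ∀ x, (SimpleGraph.fromRel T.Adj).dist x v ≤ J)
    (hΔ : (s + 1) * 1000 ^ ((J + 2) * (J + 3)) ≤ outDeg T v)
    (hs : Fintype.card κ ≤ outDeg T v + 1 + s) (T' : Digraph κ) (hT' : T' = T ∨ T' = rev T) :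
    (tNum T' = 2 * outDeg T v - 1 + tNum (anc T v) ∧
      cNum T' = 2 * outDeg T v - 1 + cNum (anc T v)) ∧
    ∀ a j : ℕ, Nonempty ((anc T v).Adj ≃r (doubleBroom a j 0).Adj) →
      tNum T' = 2 * outDeg T v - 1 + max 1 (2 * a) + j ∧
      cNum T' = 2 * outDeg T v - 1 + max 1 (2 * a) + j := by
  have h1 : tNum T' = tNum T ∧ cNum T' = cNum T := by
    rcases hT' with h | h
    · rw [h]
      exact ⟨rfl, rfl⟩
    · rw [h]
      exact ⟨tNum_rev T, cNum_rev T⟩
  rw [h1.1, h1.2]
  obtain ⟨h2, h3⟩ := reductionJ hT ht hJ hΔ hs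
  refine ⟨⟨h2, h3⟩, ?_⟩
  rintro a j ⟨e⟩
  obtain ⟨h4, h5⟩ := broom_num a j 0
  have h6 : 1 ≤ max 1 (2 * a) := le_max_left _ _
  rw [h2, h3, tNum_iso e, cNum_iso e, h4, h5]
  omega

end Pool.Agent.Results.MP_fcea8e_co.DominatingVertex
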