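import Pool.Agent.Work.MP_fcea8e_co.Typ.DetFin

/-!
# A bound in terms of the height ranges of the subtrees

Let `T` be an oriented tree with height function `h` (every arc goes from height `i` to height `i + 1`),
`r` any vertex, regarded as the root. For a vertex `v` the subtree below `v` consists of the vertices `t` for
which `v` is on the path from `t` to `r`. If `Rg v` is (an upper bound for) the difference between the largest
and the smallest height in the subtree below `v`, then `c(T) ≤ 1 + ∑_v (8 + 32 Rg(v))`.

Idea: in every oriented graph all vertices outside a set with a proper colouring with `8 l K` colours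
belong to the middle layer of a system of `2 l + 1` layers in which all vertices have at least `K`
out-neighbours in the next and `K` in-neighbours in the previous layer. This is used for
`l = 1, 2, 4, ...` and `K` = the number of vertices `v` with `Rg v ≥ l / 2`.
-/

set_option autoImplicit false

namespace Pool.Agent.Results.MP_fcea8e_co.RangeBound

open Pool.Agent.Work.MP_fcea8e_co.Dom

theorem result {κ : Type} [Fintype κ] (T : Digraph κ) (hT : Oriented T)
    (ht : (SimpleGraph.fromRel T.Adj).IsTree) (h : κ → ℤ)
    (hh : ∀ a b, T.Adj a b → h b = h a + 1) (r : κ) (Rg : κ → ℕ)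
    (hRg : ∀ v t t', (SimpleGraph.fromRel T.Adj).dist t r =
        (SimpleGraph.fromRel T.Adj).dist t v + (SimpleGraph.fromRel T.Adj).dist v r →
      (SimpleGraph.fromRel T.Adj).dist t' r =
        (SimpleGraph.fromRel T.Adj).dist t' v + (SimpleGraph.fromRel T.Adj).dist v r →
      h t - h t' ≤ Rg v) :
    cNum T ≤ 1 + ∑ v, (8 + 32 * Rg v) :=
  Pool.Agent.Work.MP_fcea8e_co.Typ.cNum_le T hT ht r h hh Rg hRg

end Pool.Agent.Results.MP_fcea8e_co.RangeBound
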