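import Pool.Agent.Work.MP_fcea8e_co.Typ.Typical

/-!
# Typical trees

There is a constant `C` such that for every `ε > 0` and all large `k` all but at most a proportion `ε` of
the labelled trees `G` on `k` vertices have the following properties. Every orientation `T` of `G` satisfies
`k ≤ t(T) ≤ c(T) ≤ k (log k) ^ 2`, and all but at most a proportion `ε` of the orientations `T` of `G` satisfy
`c(T) ≤ C k`. In particular almost all labelled oriented trees on `k` vertices satisfy
`k ≤ t(T) ≤ c(T) ≤ C k`.

The proof: for every oriented tree `T` and every choice of a root, `c(T) ≤ 1 + ∑_v (8 + 32 Rg(v))`, where `Rg(v)` is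
the difference between the largest and the smallest height of a vertex in the subtree below `v`
(`Pool.Agent.Work.MP_fcea8e_co.Typ.cNum_le`), and an analysis of this sum for random trees.
-/

set_option autoImplicit false

namespace Pool.Agent.Results.MP_fcea8e_co.TypicalTrees

open Pool.Agent.Work.MP_fcea8e_co.Dom

theorem result : ∃ C : ℕ, ∀ ε : ℝ, 0 < ε → ∃ k₀ : ℕ, ∀ k : ℕ, k₀ ≤ k →
    (Nat.card {G : SimpleGraph (Fin k) // G.IsTree ∧
      ¬ ((∀ T : Digraph (Fin k), Oriented T → SimpleGraph.fromRel T.Adj = G →
          k ≤ tNum T ∧ tNum T ≤ cNum T ∧ (cNum T : ℝ) ≤ k * Real.log k ^ 2) ∧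
        (Nat.card {T : Digraph (Fin k) // Oriented T ∧ SimpleGraph.fromRel T.Adj = G ∧
          C * k < cNum T} : ℝ) ≤
          ε * Nat.card {T : Digraph (Fin k) // Oriented T ∧
            SimpleGraph.fromRel T.Adj = G})} : ℝ) ≤
      ε * Nat.card {G : SimpleGraph (Fin k) // G.IsTree} :=
  Pool.Agent.Work.MP_fcea8e_co.Typ.typical

end Pool.Agent.Results.MP_fcea8e_co.TypicalTrees
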